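import Mathlib
import Pool.Agent.Y799.CO.Gen

/-!
# Corner-dot Costas array constructions: explicit and robust failure

For the five corner-dot methods `G_1, G_0, W_0, RW_0, RG_1` we prove: no Costas array is produced in
any order `n ≥ 10 ^ 80` (Golomb type) or `n ≥ 10 ^ 36` (Welch type); moreover every array produced
in such an order is far from being a Costas array: every set of dots which contains the new dot and
whose difference vectors are pairwise distinct misses at least `n / 200000` of the `n` dots.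
-/

set_option autoImplicit false

namespace Pool.Agent.Results.MP_9bdca2_co.RobustExplicitFailure

/-- `f` restricts to a Costas permutation of order `n`: it is a bijection of `{1,...,n}` and the
vectors `(i - j, f i - f j)`, `1 ≤ j < i ≤ n`, are pairwise distinct in `ℤ × ℤ`. -/
def IsCostas (n : ℕ) (f : ℕ → ℕ) : Prop :=
  Set.BijOn f (Set.Icc 1 n) (Set.Icc 1 n) ∧
  ∀ i j k l : ℕ, 1 ≤ j → j < i → i ≤ n → 1 ≤ l → l < k → k ≤ n →
    (((i : ℤ) - j, (f i : ℤ) - f j) : ℤ × ℤ) = ((k : ℤ) - l, (f k : ℤ) - f l) → i = k ∧ j = l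

/-- The vectors `(i - j, f i - f j)`, `j < i`, `i, j ∈ S`, are pairwise distinct: the dots
`(i, f i)`, `i ∈ S`, violate no Costas condition. -/
def DistinctVectors (S : Finset ℕ) (f : ℕ → ℕ) : Prop :=
  ∀ i ∈ S, ∀ j ∈ S, ∀ k ∈ S, ∀ l ∈ S, j < i → l < k →
    (((i : ℤ) - j, (f i : ℤ) - f j) : ℤ × ℤ) = ((k : ℤ) - l, (f k : ℤ) - f l) → i = k ∧ j = l

/-- Welch permutation `W_1(p, α, c)`: `p` is prime, `α` is a primitive root modulo `p`,
`0 ≤ c ≤ p - 2`, and `g i` is the residue of `α ^ (i - 1 + c)` in `{1,...,p-1}`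
for `1 ≤ i ≤ p - 1`. -/
def IsWelch (p : ℕ) (α : ZMod p) (c : ℕ) (g : ℕ → ℕ) : Prop :=
  p.Prime ∧ orderOf α = p - 1 ∧ c ≤ p - 2 ∧
    ∀ i, 1 ≤ i → i ≤ p - 1 → g i = (α ^ (i - 1 + c)).val

/-- Golomb permutation `G_2(q, α, β)`, `q = |F|`: `α, β` are primitive elements of `F` and
`g : {1,...,q-2} → {1,...,q-2}` satisfies `α ^ i + β ^ (g i) = 1`. -/
def IsGolomb {F : Type} [Field F] [Fintype F] (α β : F) (g : ℕ → ℕ) : Prop :=
  orderOf α = Fintype.card F - 1 ∧ orderOf β = Fintype.card F - 1 ∧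
    ∀ i, 1 ≤ i → i ≤ Fintype.card F - 2 →
      1 ≤ g i ∧ g i ≤ Fintype.card F - 2 ∧ α ^ i + β ^ (g i) = 1

/-- `f` is an array of order `n` given by the method `G_1`; the new dot is `(1, 1)`. -/
def ArrayG1 (n : ℕ) (f : ℕ → ℕ) : Prop :=
  ∃ (F : Type) (_ : Field F) (_ : Fintype F) (α β : F) (g : ℕ → ℕ),
    IsGolomb α β g ∧ n = Fintype.card F - 1 ∧
    f 1 = 1 ∧ (∀ i, 2 ≤ i → i ≤ Fintype.card F - 1 → f i = g (i - 1) + 1)

/-- `f` is an array of order `n` given by the method `G_0`; the new dots are `(1, 1)` and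
`(n, n)`. -/
def ArrayG0 (n : ℕ) (f : ℕ → ℕ) : Prop :=
  ∃ (F : Type) (_ : Field F) (_ : Fintype F) (α β : F) (g : ℕ → ℕ),
    IsGolomb α β g ∧ n = Fintype.card F ∧
    f 1 = 1 ∧ f (Fintype.card F) = Fintype.card F ∧
    (∀ i, 2 ≤ i → i ≤ Fintype.card F - 1 → f i = g (i - 1) + 1)

/-- `f` is an array of order `n` given by the method `W_0`; the new dot is `(1, 1)`. -/
def ArrayW0 (n : ℕ) (f : ℕ → ℕ) : Prop :=
  ∃ (p : ℕ) (α : ZMod p) (c : ℕ) (g : ℕ → ℕ),
    IsWelch p α c g ∧ n = p ∧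
    f 1 = 1 ∧ (∀ i, 2 ≤ i → i ≤ p → f i = g (i - 1) + 1)

/-- `f` is an array of order `n` given by Rickard's method `RW_0`; the new dot is `(n, t)`. -/
def ArrayRW0 (n : ℕ) (f : ℕ → ℕ) : Prop :=
  ∃ (p : ℕ) (α : ZMod p) (c : ℕ) (g : ℕ → ℕ) (t : ℕ),
    IsWelch p α c g ∧ n = p ∧ 2 ≤ t ∧ t ≤ p - 1 ∧
    (∀ i, 1 ≤ i → i ≤ p - 1 → f i = (g i + t - 1) % p + 1) ∧ f p = t

/-- `f` is an array of order `n` given by Rickard's method `RG_1` with the new dot `(t₁, t₂)`. -/
def ArrayRG1 (n : ℕ) (f : ℕ → ℕ) (t₁ : ℕ) : Prop :=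
  ∃ (F : Type) (_ : Field F) (_ : Fintype F) (α β : F) (g : ℕ → ℕ) (t₂ : ℕ),
    IsGolomb α β g ∧ n = Fintype.card F - 1 ∧
    2 ≤ t₁ ∧ t₁ ≤ Fintype.card F - 2 ∧ 2 ≤ t₂ ∧ t₂ ≤ Fintype.card F - 2 ∧
    f t₁ = t₂ ∧
    (∀ i, 1 ≤ i → i ≤ Fintype.card F - 1 → i ≠ t₁ →
      f i = (g ((((i : ℤ) - t₁ - 1) % ((Fintype.card F : ℤ) - 1)).toNat + 1) + t₂ - 1)
        % (Fintype.card F - 1) + 1)

/-- `f` is not a Costas array of order `n`, and every set of dots that contains the dot over `o`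
and has pairwise distinct difference vectors misses at least `n / 200000` of the `n` dots. -/
def FarFromCostas (n : ℕ) (f : ℕ → ℕ) (o : ℕ) : Prop :=
  ¬ IsCostas n f ∧
  ∀ S : Finset ℕ, S ⊆ Finset.Icc 1 n → o ∈ S → DistinctVectors S f →
    n ≤ 200000 * (n - S.card)

theorem DistinctVectors.on {S : Finset ℕ} {f : ℕ → ℕ} (h : DistinctVectors S f) :
    Y799.CO.DistinctOn S f := by
  intro i hi j hj k hk l hl h1 h2 h3 h4
  exact (h i hi j hj k hk l hl h1 h2 (Prod.ext h3 h4)).1

theorem far_of {n : ℕ} {f : ℕ → ℕ} {o : ℕ} (hn : 1 ≤ n) (ho : 1 ≤ o ∧ o ≤ n)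
    (hr : IsCostas n f → ∀ S : Finset ℕ, S ⊆ Finset.Icc 1 n → o ∈ S → DistinctVectors S f →
      n ≤ 200000 * (n - S.card))
    (h : ∀ S : Finset ℕ, S ⊆ Finset.Icc 1 n → o ∈ S → DistinctVectors S f →
      n ≤ 200000 * (n - S.card)) : FarFromCostas n f o := by
  refine ⟨fun hC => ?_, h⟩
  have h1 := hr hC (Finset.Icc 1 n) (Finset.Subset.refl _) (Finset.mem_Icc.2 ho) (by
    intro i hi j hj k hk l hl h1 h2 h3
    rw [Finset.mem_Icc] at hi hj hk hl
    exact hC.2 i j k l hj.1 h1 hi.2 hl.1 h2 hk.2 h3)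
  rw [Nat.card_Icc, Nat.add_sub_cancel, Nat.sub_self, mul_zero] at h1
  omega

theorem zpow_eq_of_dvd {F : Type} [Field F] {N : ℕ} {α : F} (hN : 0 < N)
    (hα : orderOf α = N) {a b : ℤ} (h : (N : ℤ) ∣ a - b) : α ^ a = α ^ b := by
  have hα0 : α ≠ 0 := by
    intro h0
    rw [h0, orderOf_zero] at hα
    omega
  obtain ⟨k, hk⟩ := h
  have h3 : a = b + N * k := by linarith
  rw [h3, zpow_add₀ hα0, zpow_mul, zpow_natCast, ← hα, pow_orderOf_eq_one, one_zpow, mul_one]

theorem big {n : ℕ} (hn : 10 ^ 36 ≤ n) : 100 ≤ n :=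
  le_trans (by norm_num) hn

theorem big' {n : ℕ} (hn : 10 ^ 80 ≤ n) : 100 ≤ n :=
  le_trans (by norm_num) hn

theorem failure_G1 {n : ℕ} {f : ℕ → ℕ} (hA : ArrayG1 n f) (hn : 10 ^ 80 ≤ n) :
    FarFromCostas n f 1 := by
  obtain ⟨F, _, _, α, β, g, ⟨hα, hβ, hg⟩, hnq, hf1, hf⟩ := hA
  have hcard := Fintype.one_lt_card (α := F)
  have hn0 := big' hn
  have key : ∀ S : Finset ℕ, S ⊆ Finset.Icc 1 n → 1 ∈ S → DistinctVectors S f →
      n ≤ 200000 * (n - S.card) := by
    intro S hS h1S hD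
    have h := Y799.CO.golomb_robust (F := F) (N := n) (by omega) (by omega) (α := α) (β := β)
      (by rw [hα, hnq]) (by rw [hβ, hnq]) (t1 := 1) (t2 := 1) le_rfl (by omega) le_rfl (by omega)
      (f := f) ?_ hf1 ?_ hS h1S hD.on
    · omega
    · intro i h1 h2
      by_cases hi : i = 1
      · rw [hi, hf1]; omega
      · have h3 := hf i (by omega) (by omega)
        have h4 := hg (i - 1) (by omega) (by omega)
        rw [h3]
        omega
    · intro i hi1 hi2 hi3
      have h1 := hf i (by omega) (by omega)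
      have h2 := hg (i - 1) (by omega) (by omega)
      have e1 : (i : ℤ) - (1 : ℕ) = ((i - 1 : ℕ) : ℤ) := by omega
      have e2 : (f i : ℤ) - (1 : ℕ) = ((g (i - 1) : ℕ) : ℤ) := by rw [h1]; push_cast; ring
      rw [e1, e2, zpow_natCast, zpow_natCast]
      exact h2.2.2
  exact far_of (by omega) ⟨le_rfl, by omega⟩ (fun _ => key) key

theorem failure_G0 {n : ℕ} {f : ℕ → ℕ} (hA : ArrayG0 n f) (hn : 10 ^ 80 ≤ n) :
    FarFromCostas n f 1 := by
  obtain ⟨F, _, _, α, β, g, ⟨hα, hβ, hg⟩, hnq, hf1, hfq, hf⟩ := hA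
  have hcard := Fintype.one_lt_card (α := F)
  have hn0 := big' hn
  have key : ∀ S : Finset ℕ, S ⊆ Finset.Icc 1 n → 1 ∈ S → DistinctVectors S f →
      n ≤ 200000 * (n - S.card) := by
    intro S hS h1S hD
    have hS' : S.erase n ⊆ Finset.Icc 1 (n - 1) := by
      intro i hi
      obtain ⟨h1, h2⟩ := Finset.mem_erase.1 hi
      have h3 := Finset.mem_Icc.1 (hS h2)
      rw [Finset.mem_Icc]
      omega
    have hD' : DistinctVectors (S.erase n) f := by
      intro i hi j hj k hk l hl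
      exact hD i (Finset.mem_of_mem_erase hi) j (Finset.mem_of_mem_erase hj) k
        (Finset.mem_of_mem_erase hk) l (Finset.mem_of_mem_erase hl)
    have h := Y799.CO.golomb_robust (F := F) (N := n - 1) (by omega) (by omega) (α := α) (β := β)
      (by rw [hα, hnq]) (by rw [hβ, hnq]) (t1 := 1) (t2 := 1) le_rfl (by omega) le_rfl (by omega)
      (f := f) ?_ hf1 ?_ hS' (Finset.mem_erase.2 ⟨by omega, h1S⟩) hD'.on
    · have h1 : S.card ≤ (S.erase n).card + 1 := by
        rw [Finset.card_erase_eq_ite]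
        split_ifs <;> omega
      omega
    · intro i h1 h2
      by_cases hi : i = 1
      · rw [hi, hf1]; omega
      · have h3 := hf i (by omega) (by omega)
        have h4 := hg (i - 1) (by omega) (by omega)
        rw [h3]
        omega
    · intro i hi1 hi2 hi3
      have h1 := hf i (by omega) (by omega)
      have h2 := hg (i - 1) (by omega) (by omega)
      have e1 : (i : ℤ) - (1 : ℕ) = ((i - 1 : ℕ) : ℤ) := by omega
      have e2 : (f i : ℤ) - (1 : ℕ) = ((g (i - 1) : ℕ) : ℤ) := by rw [h1]; push_cast; ring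
      rw [e1, e2, zpow_natCast, zpow_natCast]
      exact h2.2.2
  exact far_of (by omega) ⟨le_rfl, by omega⟩ (fun _ => key) key

theorem failure_RG1 {n : ℕ} {f : ℕ → ℕ} {t₁ : ℕ} (hA : ArrayRG1 n f t₁) (hn : 10 ^ 80 ≤ n) :
    FarFromCostas n f t₁ := by
  obtain ⟨F, _, _, α, β, g, t₂, ⟨hα, hβ, hg⟩, hnq, ht1, ht1', ht2, ht2', hft, hf⟩ := hA
  have hcard := Fintype.one_lt_card (α := F)
  have hnbig := big' hn
  have hn0 : 0 < n := by omega
  have hαn : orderOf α = n := by rw [hα, hnq]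
  have hβn : orderOf β = n := by rw [hβ, hnq]
  have hcn : (Fintype.card F : ℤ) - 1 = n := by omega
  have key : ∀ S : Finset ℕ, S ⊆ Finset.Icc 1 n → t₁ ∈ S → DistinctVectors S f →
      n ≤ 200000 * (n - S.card) := by
    intro S hS h1S hD
    have h := Y799.CO.golomb_robust (F := F) (N := n) (by omega) (by omega) (α := α) (β := β)
      hαn hβn (t1 := t₁) (t2 := t₂) (by omega) (by omega) (by omega) (by omega)
      (f := f) ?_ hft ?_ hS h1S hD.on
    · omega
    · intro i hi1 hi2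
      by_cases hi3 : i = t₁
      · rw [hi3, hft]; omega
      · have h1 := hf i hi1 (by omega) hi3
        rw [← hnq] at h1
        have h2 := Nat.mod_lt (g ((((i : ℤ) - t₁ - 1) % ((Fintype.card F : ℤ) - 1)).toNat + 1) +
          t₂ - 1) hn0
        omega
    · intro i hi1 hi2 hi3
      have h1 := hf i hi1 (by omega) hi3
      rw [hcn, ← hnq] at h1
      set r : ℤ := ((i : ℤ) - t₁ - 1) % (n : ℤ) with hr
      have hr0 : 0 ≤ r := Int.emod_nonneg _ (by omega)
      have hrn : r < n := Int.emod_lt_of_pos _ (by omega)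
      have hdvd : (n : ℤ) ∣ ((i : ℤ) - t₁ - 1) - r := by
        rw [hr]; exact Int.dvd_self_sub_emod
      set i' : ℕ := r.toNat + 1 with hi'
      have hi'r : (i' : ℤ) = r + 1 := by rw [hi']; push_cast; rw [Int.toNat_of_nonneg hr0]
      have hne : i' ≠ n := by
        intro h
        have : r = n - 1 := by rw [h] at hi'r; linarith
        rw [this] at hdvd
        obtain ⟨k, hk⟩ := hdvd
        have hk2 : (i : ℤ) - t₁ = n * (k + 1) := by linarith
        have hk3 : -(n : ℤ) < n * (k + 1) := by rw [← hk2]; omega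
        have hk4 : (n : ℤ) * (k + 1) < n := by rw [← hk2]; omega
        have hk5 : k + 1 < 1 := by
          by_contra hcon
          push Not at hcon
          nlinarith
        have hk6 : -1 < k + 1 := by
          by_contra hcon
          push Not at hcon
          nlinarith
        have hk7 : k + 1 = 0 := by omega
        rw [hk7, mul_zero] at hk2
        apply hi3
        omega
      have h2 := hg i' (by omega) (by omega)
      have e1 : α ^ ((i : ℤ) - t₁) = α ^ i' := by
        rw [← zpow_natCast]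
        apply zpow_eq_of_dvd hn0 hαn
        have : (i : ℤ) - t₁ - (i' : ℤ) = (i : ℤ) - t₁ - 1 - r := by rw [hi'r]; ring
        rw [this]; exact hdvd
      have e2 : β ^ ((f i : ℤ) - t₂) = β ^ (g i') := by
        rw [← zpow_natCast]
        apply zpow_eq_of_dvd hn0 hβn
        have h3 : (n : ℤ) ∣ ((g i' + t₂ - 1 : ℕ) : ℤ) - (((g i' + t₂ - 1) % n : ℕ) : ℤ) := by
          push_cast
          exact Int.dvd_self_sub_emod
        have h4 : ((g i' + t₂ - 1 : ℕ) : ℤ) = (g i' : ℤ) + t₂ - 1 := by omega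
        have h5 : (f i : ℤ) - t₂ - (g i' : ℤ)
            = -(((g i' + t₂ - 1 : ℕ) : ℤ) - (((g i' + t₂ - 1) % n : ℕ) : ℤ)) := by
          rw [h1, h4]; push_cast; ring
        rw [h5]
        exact (dvd_neg).mpr h3
      rw [e1, e2]
      exact h2.2.2
  exact far_of (by omega) ⟨by omega, by omega⟩ (fun _ => key) key

theorem failure_RW0 {n : ℕ} {f : ℕ → ℕ} (hA : ArrayRW0 n f) (hn : 10 ^ 36 ≤ n) :
    FarFromCostas n f n := by
  obtain ⟨p, α, c, g, t, ⟨hp, hα, hc, hg⟩, hnp, ht1, ht2, hf, hfp⟩ := hA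
  subst hnp
  have hnbig := big hn
  have : Fact n.Prime := ⟨hp⟩
  have hα0 : α ≠ 0 := by
    intro h0
    rw [h0, orderOf_zero] at hα
    omega
  have key : ∀ S : Finset ℕ, S ⊆ Finset.Icc 1 n → n ∈ S → DistinctVectors S f →
      n ≤ 200000 * (n - S.card) := by
    intro S hS h1S hD
    refine Y799.CO.welch_robust hp hn (α := α) (A := α⁻¹ * α ^ c) hα
      (mul_ne_zero (inv_ne_zero hα0) (pow_ne_zero c hα0)) (t := t) (by omega) (by omega) (f := f)
      ?_ hfp ?_ hS h1S hD.on
    · intro i hi1 hi2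
      by_cases hi3 : i = n
      · rw [hi3, hfp]; omega
      · have h1 := hf i hi1 (by omega)
        have h2 := Nat.mod_lt (g i + t - 1) hp.pos
        omega
    · intro i hi1 hi2
      have h1 := hf i hi1 hi2
      have h2 := hg i hi1 hi2
      have h3 : (((g i + t - 1) % n + 1 : ℕ) : ZMod n) = (g i : ZMod n) + t := by
        have e : g i + t - 1 + 1 = g i + t := by omega
        calc (((g i + t - 1) % n + 1 : ℕ) : ZMod n) = ((g i + t - 1 + 1 : ℕ) : ZMod n) := by
              push_cast; rw [ZMod.natCast_mod]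
          _ = (g i : ZMod n) + t := by rw [e]; push_cast; ring
      rw [h1, h3, h2, ZMod.natCast_val, ZMod.cast_id', id]
      have h4 : α ^ i = α * α ^ (i - 1) := by
        rw [← pow_succ']; congr 1; omega
      rw [h4, pow_add]
      field_simp
  exact far_of (by omega) ⟨by omega, le_rfl⟩ (fun _ => key) key

theorem failure_W0 {n : ℕ} {f : ℕ → ℕ} (hA : ArrayW0 n f) (hn : 10 ^ 36 ≤ n) :
    FarFromCostas n f 1 := by
  obtain ⟨p, α, c, g, ⟨hp, hα, hc, hg⟩, hnp, hf1, hf⟩ := hA
  subst hnp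
  have hnbig := big hn
  have : Fact n.Prime := ⟨hp⟩
  have hα0 : α ≠ 0 := by
    intro h0
    rw [h0, orderOf_zero] at hα
    omega
  have hαinv : orderOf (α⁻¹) = n - 1 := by
    have e1 : α⁻¹ = ((Units.mk0 α hα0)⁻¹ : (ZMod n)ˣ) := by simp
    rw [e1, orderOf_units, orderOf_inv, ← hα, ← orderOf_units, Units.val_mk0]
  have hfermat : α ^ (n - 1) = 1 := by rw [← hα]; exact pow_orderOf_eq_one α
  have key : ∀ S : Finset ℕ, S ⊆ Finset.Icc 1 n → 1 ∈ S → DistinctVectors S f →
      n ≤ 200000 * (n - S.card) := by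
    intro S hS h1S hD
    have hinj : Set.InjOn (fun i => n + 1 - i) (S : Set ℕ) := by
      intro i hi j hj h
      have h1 := Finset.mem_Icc.1 (hS hi)
      have h2 := Finset.mem_Icc.1 (hS hj)
      have h3 : n + 1 - i = n + 1 - j := h
      omega
    have hcardS : (S.image fun i => n + 1 - i).card = S.card := Finset.card_image_of_injOn hinj
    have h := Y799.CO.welch_robust hp hn (α := α⁻¹) (A := α ^ c) hαinv (pow_ne_zero c hα0)
      (t := 1) le_rfl (by omega) (f := fun i => f (n + 1 - i)) ?_ ?_ ?_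
      (S := S.image fun i => n + 1 - i) ?_ ?_ ?_
    · rwa [hcardS] at h
    · intro i h1 h2
      by_cases hi : i = n
      · have : n + 1 - i = 1 := by omega
        simp only [this, hf1]
        omega
      · have h3 := hf (n + 1 - i) (by omega) (by omega)
        have h4 := hg (n + 1 - i - 1) (by omega) (by omega)
        have h5 : (α ^ (n + 1 - i - 1 - 1 + c)).val < n := ZMod.val_lt _
        simp only [h3, h4]
        omega
    · have : n + 1 - n = 1 := by omega
      simp only [this]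
      exact hf1
    · intro i hi1 hi2
      have h1 := hf (n + 1 - i) (by omega) (by omega)
      have e0 : n + 1 - i - 1 = n - i := by omega
      rw [e0] at h1
      have h2 := hg (n - i) (by omega) (by omega)
      simp only [h1]
      push_cast
      rw [h2, ZMod.natCast_val, ZMod.cast_id', id]
      congr 1
      have e3 : α ^ (n - i - 1 + c) * α ^ i = α ^ (n - 1) * α ^ c := by
        rw [← pow_add, ← pow_add]; congr 1; omega
      rw [hfermat, one_mul] at e3
      rw [inv_pow, ← e3, mul_assoc, mul_inv_cancel₀ (pow_ne_zero i hα0), mul_one]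
    · intro i hi
      obtain ⟨j, hj, rfl⟩ := Finset.mem_image.1 hi
      have h2 := Finset.mem_Icc.1 (hS hj)
      rw [Finset.mem_Icc]
      omega
    · exact Finset.mem_image.2 ⟨1, h1S, by omega⟩
    · intro i hi j hj k hk l hl h7 h8 h9 h10
      obtain ⟨i', hi', rfl⟩ := Finset.mem_image.1 hi
      obtain ⟨j', hj', rfl⟩ := Finset.mem_image.1 hj
      obtain ⟨k', hk', rfl⟩ := Finset.mem_image.1 hk
      obtain ⟨l', hl', rfl⟩ := Finset.mem_image.1 hl
      have bi := Finset.mem_Icc.1 (hS hi')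
      have bj := Finset.mem_Icc.1 (hS hj')
      have bk := Finset.mem_Icc.1 (hS hk')
      have bl := Finset.mem_Icc.1 (hS hl')
      have ri : n + 1 - (n + 1 - i') = i' := by omega
      have rj : n + 1 - (n + 1 - j') = j' := by omega
      have rk : n + 1 - (n + 1 - k') = k' := by omega
      have rl : n + 1 - (n + 1 - l') = l' := by omega
      simp only [ri, rj, rk, rl] at h10
      have e := hD.on j' hj' i' hi' l' hl' k' hk' (by omega) (by omega) (by omega) (by linarith)
      omega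
  exact far_of (by omega) ⟨le_rfl, by omega⟩ (fun _ => key) key

/-- **Explicit and robust failure of the five corner-dot methods.** In every order `n ≥ 10 ^ 80`
the arrays given by the methods `G_1, G_0, RG_1`, and in every order `n ≥ 10 ^ 36` the arrays given
by the methods `W_0, RW_0`, are not Costas arrays; moreover every set of dots of such an array that
contains the new dot and has pairwise distinct difference vectors misses at least `n / 200000` of
the `n` dots. -/
theorem result :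
    (∀ (n : ℕ) (f : ℕ → ℕ), 10 ^ 80 ≤ n → ArrayG1 n f → FarFromCostas n f 1) ∧
    (∀ (n : ℕ) (f : ℕ → ℕ), 10 ^ 80 ≤ n → ArrayG0 n f → FarFromCostas n f 1) ∧
    (∀ (n : ℕ) (f : ℕ → ℕ), 10 ^ 36 ≤ n → ArrayW0 n f → FarFromCostas n f 1) ∧
    (∀ (n : ℕ) (f : ℕ → ℕ), 10 ^ 36 ≤ n → ArrayRW0 n f → FarFromCostas n f n) ∧
    (∀ (n : ℕ) (f : ℕ → ℕ) (t₁ : ℕ), 10 ^ 80 ≤ n → ArrayRG1 n f t₁ → FarFromCostas n f t₁) :=
  ⟨fun _ _ hn h => failure_G1 h hn, fun _ _ hn h => failure_G0 h hn,
    fun _ _ hn h => failure_W0 h hn, fun _ _ hn h => failure_RW0 h hn,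
    fun _ _ _ hn h => failure_RG1 h hn⟩

end Pool.Agent.Results.MP_9bdca2_co.RobustExplicitFailure
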